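import Pool.Agent.Helper71.E5.Stmts

/-! Row DTOUR (MP_efd95c_co). -/

set_option autoImplicit false

open Complex

noncomputable section

namespace E5

namespace H82

/-- derivative of the distance along a line -/
theorem hasDerivAt_dist {x y u v : ℂ} (hxy : x ≠ y) :
    HasDerivAt (fun s : ℝ => dist (x + (s : ℂ) * u) (y + (s : ℂ) * v))
      (((x - y) * (starRingEnd ℂ) (u - v)).re / dist x y) 0 := by
  have hd : 0 < dist x y := dist_pos.2 hxy
  have h1 : ∀ s : ℝ, dist (x + (s : ℂ) * u) (y + (s : ℂ) * v) =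
      Real.sqrt (dist x y ^ 2 + 2 * s * ((x - y) * (starRingEnd ℂ) (u - v)).re +
        s ^ 2 * ‖u - v‖ ^ 2) := by
    intro s
    have e1 : (x + (s : ℂ) * u) - (y + (s : ℂ) * v) = (x - y) + (s : ℂ) * (u - v) := by ring
    rw [dist_eq_norm, e1, dist_eq_norm]
    have h2 : ‖(x - y) + (s : ℂ) * (u - v)‖ ^ 2 = ‖x - y‖ ^ 2 +
        2 * s * ((x - y) * (starRingEnd ℂ) (u - v)).re + s ^ 2 * ‖u - v‖ ^ 2 := by
      rw [← Complex.normSq_eq_norm_sq, ← Complex.normSq_eq_norm_sq, ← Complex.normSq_eq_norm_sq,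
        Complex.normSq_add]
      simp only [map_mul, conj_ofReal, Complex.normSq_ofReal]
      have h3 : ((x - y) * ((s : ℂ) * (starRingEnd ℂ) (u - v))).re =
          s * ((x - y) * (starRingEnd ℂ) (u - v)).re := by
        have : (x - y) * ((s : ℂ) * (starRingEnd ℂ) (u - v)) =
            (s : ℂ) * ((x - y) * (starRingEnd ℂ) (u - v)) := by ring
        rw [this, Complex.re_ofReal_mul]
      rw [h3]
      ring
    rw [← h2, Real.sqrt_sq (norm_nonneg _)]
  have h4 : (fun s : ℝ => dist (x + (s : ℂ) * u) (y + (s : ℂ) * v)) =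
      fun s => Real.sqrt (dist x y ^ 2 + 2 * s * ((x - y) * (starRingEnd ℂ) (u - v)).re +
        s ^ 2 * ‖u - v‖ ^ 2) := funext h1
  rw [h4]
  have h5 : HasDerivAt (fun s : ℝ => dist x y ^ 2 +
      2 * s * ((x - y) * (starRingEnd ℂ) (u - v)).re + s ^ 2 * ‖u - v‖ ^ 2)
      (2 * ((x - y) * (starRingEnd ℂ) (u - v)).re) 0 := by
    have a1 : HasDerivAt (fun s : ℝ => 2 * s * ((x - y) * (starRingEnd ℂ) (u - v)).re)
        (2 * ((x - y) * (starRingEnd ℂ) (u - v)).re) 0 := by
      simpa using ((hasDerivAt_id (0 : ℝ)).const_mul 2).mul_const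
        ((x - y) * (starRingEnd ℂ) (u - v)).re
    have a2 : HasDerivAt (fun s : ℝ => s ^ 2 * ‖u - v‖ ^ 2) 0 0 := by
      simpa using (hasDerivAt_pow 2 (0 : ℝ)).mul_const (‖u - v‖ ^ 2)
    exact ((a1.const_add (dist x y ^ 2)).add a2).congr_deriv (by ring)
  have hne : dist x y ^ 2 + 2 * (0 : ℝ) * ((x - y) * (starRingEnd ℂ) (u - v)).re +
      (0 : ℝ) ^ 2 * ‖u - v‖ ^ 2 ≠ 0 := by
    have : dist x y ^ 2 + 2 * (0 : ℝ) * ((x - y) * (starRingEnd ℂ) (u - v)).re +
      (0 : ℝ) ^ 2 * ‖u - v‖ ^ 2 = dist x y ^ 2 := by ring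
    rw [this]
    positivity
  have h6 := h5.sqrt hne
  refine h6.congr_deriv ?_
  simp only [mul_zero, zero_mul, add_zero, ne_eq, OfNat.ofNat_ne_zero, not_false_eq_true, zero_pow]
  rw [Real.sqrt_sq hd.le]
  field_simp

theorem hasDerivAt_lg {x y u v : ℂ} (hxy : x ≠ y) (h2 : dist x y < 2) :
    HasDerivAt (fun s : ℝ => lg (x + (s : ℂ) * u) (y + (s : ℂ) * v))
      (om x y * ((x - y) * (starRingEnd ℂ) (u - v)).re) 0 := by
  have hd : 0 < dist x y := dist_pos.2 hxy
  have h1 := (hasDerivAt_dist (u := u) (v := v) hxy).div_const (2 * 1)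
  have h3 : dist (x + ((0 : ℝ) : ℂ) * u) (y + ((0 : ℝ) : ℂ) * v) = dist x y := by simp
  have h4 := (Real.hasDerivAt_arcsin (x := dist x y / (2 * 1)) (by
      have : (0 : ℝ) < dist x y / (2 * 1) := by positivity
      linarith) (by
      have : dist x y / (2 * 1) < 1 := by linarith
      exact this.ne))
  have h5 : HasDerivAt Real.arcsin (1 / √(1 - (dist x y / (2 * 1)) ^ 2))
      (dist (x + ((0 : ℝ) : ℂ) * u) (y + ((0 : ℝ) : ℂ) * v) / (2 * 1)) := by
    rw [h3]; exact h4
  have h6 := (h5.comp (0 : ℝ) h1).const_mul 2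
  refine HasDerivAt.congr_deriv (f := fun s : ℝ => lg (x + (s : ℂ) * u) (y + (s : ℂ) * v)) h6 ?_
  unfold om
  have h7 : √(1 - (dist x y / (2 * 1)) ^ 2) = √(4 - dist x y ^ 2) / 2 := by
    have : 1 - (dist x y / (2 * 1)) ^ 2 = (4 - dist x y ^ 2) / 2 ^ 2 := by ring
    rw [this, Real.sqrt_div' _ (by norm_num), Real.sqrt_sq (by norm_num)]
  rw [h7]
  have h8 : 0 < √(4 - dist x y ^ 2) := Real.sqrt_pos.2 (by nlinarith)
  field_simp

theorem hasDerivAt_list_sum {α : Type} (F : α → ℝ → ℝ) (D : α → ℝ) (zs : List α)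
    (h : ∀ z ∈ zs, HasDerivAt (F z) (D z) 0) :
    HasDerivAt (fun s => (zs.map (fun z => F z s)).sum) ((zs.map D).sum) 0 := by
  induction zs with
  | nil => simpa using hasDerivAt_const (0 : ℝ) (0 : ℝ)
  | cons z zs ih =>
    simp only [List.map_cons, List.sum_cons]
    exact (h z (by simp)).add (ih fun w hw => h w (by simp [hw]))

theorem pair_mem {α : Type} {l : List α} (hl : l.Nodup) (h2 : 2 ≤ l.length) {z : α × α}
    (hz : z ∈ l.zip (l.rotate 1)) : z.1 ∈ l ∧ z.2 ∈ l ∧ z.1 ≠ z.2 := by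
  rw [List.mem_iff_getElem] at hz
  obtain ⟨k, hk, rfl⟩ := hz
  have hk1 : k < l.length := by
    rw [List.length_zip, List.length_rotate, min_self] at hk
    exact hk
  rw [List.getElem_zip]
  refine ⟨List.getElem_mem _, ?_, ?_⟩
  · have := List.getElem_mem (l := l.rotate 1) (n := k) (by rw [List.length_rotate]; exact hk1)
    rwa [List.mem_rotate] at this
  · intro h
    simp only at h
    rw [List.getElem_rotate] at h
    have h3 := (List.Nodup.getElem_inj_iff hl).1 h
    rcases Nat.lt_or_ge (k + 1) l.length with h4 | h4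
    · rw [Nat.mod_eq_of_lt h4] at h3; omega
    · have h5 : k + 1 = l.length := by omega
      rw [h5, Nat.mod_self] at h3
      omega

theorem zipWith_rot {α β : Type} (f : α → α → β) (l : List α) :
    List.zipWith f l (l.rotate 1) = (l.zip (l.rotate 1)).map (fun z => f z.1 z.2) := by
  rw [← List.map_uncurry_zip_eq_zipWith]
  rfl

theorem sum_re_list {n : ℕ} {α : Type} (T : α → Fin n → ℂ) (h : Fin n → ℂ) (zs : List α) :
    ∑ i, ((zs.map (fun z => T z i)).sum * (starRingEnd ℂ) (h i)).re =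
      (zs.map (fun z => ∑ i, (T z i * (starRingEnd ℂ) (h i)).re)).sum := by
  induction zs with
  | nil => simp
  | cons z zs ih =>
    simp only [List.map_cons, List.sum_cons]
    rw [← ih, ← Finset.sum_add_distrib]
    refine Finset.sum_congr rfl fun i _ => ?_
    rw [add_mul, add_re]

theorem sum_pair {n : ℕ} {u v : Fin n} (huv : u ≠ v) (A B : ℂ) (h : Fin n → ℂ) :
    ∑ i, ((if u = i then A else if v = i then B else 0) * (starRingEnd ℂ) (h i)).re =
      (A * (starRingEnd ℂ) (h u)).re + (B * (starRingEnd ℂ) (h v)).re := by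
  have h1 : ∀ i : Fin n, ((if u = i then A else if v = i then B else 0) *
      (starRingEnd ℂ) (h i)).re = (if u = i then (A * (starRingEnd ℂ) (h u)).re else 0) +
      (if v = i then (B * (starRingEnd ℂ) (h v)).re else 0) := by
    intro i
    by_cases h1 : u = i
    · subst h1
      simp [Ne.symm huv]
    · by_cases h2 : v = i
      · subst h2
        simp [huv]
      · simp [h1, h2]
  rw [Finset.sum_congr rfl fun i _ => h1 i, Finset.sum_add_distrib]
  simp

end H82

theorem DTOUR : ST_DTOUR := by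
  intro n c h l hl h2 hc
  have e1 : (fun s : ℝ => ctour (fun i => c i + (s : ℂ) * h i) l) = fun s : ℝ =>
      ((l.zip (l.rotate 1)).map (fun z : Fin n × Fin n =>
        lg (c z.1 + (s : ℂ) * h z.1) (c z.2 + (s : ℂ) * h z.2))).sum := by
    funext s
    unfold ctour
    rw [H82.zipWith_rot]
  have e2 : ∑ i, (cgrad c l i * (starRingEnd ℂ) (h i)).re =
      ((l.zip (l.rotate 1)).map (fun z : Fin n × Fin n => om (c z.1) (c z.2) *
        ((c z.1 - c z.2) * (starRingEnd ℂ) (h z.1 - h z.2)).re)).sum := by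
    have e3 : ∀ i, cgrad c l i = ((l.zip (l.rotate 1)).map (fun z : Fin n × Fin n =>
        if z.1 = i then (om (c z.1) (c z.2) : ℂ) * (c z.1 - c z.2)
        else if z.2 = i then (om (c z.1) (c z.2) : ℂ) * (c z.2 - c z.1) else 0)).sum := by
      intro i
      unfold cgrad
      rw [H82.zipWith_rot]
    simp only [e3]
    rw [H82.sum_re_list]
    congr 1
    refine List.map_congr_left fun z hz => ?_
    obtain ⟨h3, h4, h5⟩ := H82.pair_mem hl h2 hz
    rw [H82.sum_pair h5]
    rw [mul_assoc, mul_assoc, Complex.re_ofReal_mul, Complex.re_ofReal_mul, map_sub, ← mul_add,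
      ← add_re]
    congr 2
    ring
  rw [e1, e2]
  refine H82.hasDerivAt_list_sum (fun (z : Fin n × Fin n) (s : ℝ) =>
    lg (c z.1 + (s : ℂ) * h z.1) (c z.2 + (s : ℂ) * h z.2)) _ _ fun z hz => ?_
  obtain ⟨h3, h4, h5⟩ := H82.pair_mem hl h2 hz
  obtain ⟨h6, h7⟩ := hc _ h3 _ h4 h5
  exact H82.hasDerivAt_lg h6 h7

end E5
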