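import Pool.Agent.Helper82.E5.GORDAN
import Pool.Agent.Helper82.E5.DTOUR

/-! Row KKT (MP_efd95c_co). -/

set_option autoImplicit false

open scoped Topology
open Complex Filter

noncomputable section

namespace E5

namespace H82

theorem lst_nodup {n : ℕ} {g : ℤ → Fin n} {M : ℕ} (hg : ∀ k l, g k = g l → (M : ℤ) ∣ l - k)
    (S : Finset (Fin n)) : (lst g M S).Nodup := by
  unfold lst
  refine List.Nodup.filter _ ?_
  refine List.Nodup.map_on ?_ List.nodup_range
  intro x hx y hy hxy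
  rw [List.mem_range] at hx hy
  have h := hg _ _ hxy
  obtain ⟨z, hz⟩ := h
  have hx' : (x : ℤ) < M := by exact_mod_cast hx
  have hy' : (y : ℤ) < M := by exact_mod_cast hy
  have hx0 : (0 : ℤ) ≤ x := by positivity
  have hy0 : (0 : ℤ) ≤ y := by positivity
  have hM : (0 : ℤ) < M := by omega
  have hz0 : z = 0 := by
    by_contra hne
    rcases lt_or_gt_of_ne hne with h1 | h1
    · have : (M : ℤ) * z ≤ M * (-1) := mul_le_mul_of_nonneg_left (by omega) hM.le
      omega
    · have : (M : ℤ) * 1 ≤ M * z := mul_le_mul_of_nonneg_left (by omega) hM.le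
      omega
  rw [hz0, mul_zero] at hz
  omega

theorem mem_lst {n : ℕ} {g : ℤ → Fin n} {M : ℕ} {S : Finset (Fin n)} {i : Fin n} :
    i ∈ lst g M S ↔ (∃ k : ℕ, k < M ∧ g (k : ℤ) = i) ∧ i ∈ S := by
  unfold lst
  simp [List.mem_filter, List.mem_map, List.mem_range]

theorem gper_mul {n : ℕ} {g : ℤ → Fin n} {M : ℕ} (hg : ∀ k, g (k + M) = g k) (k z : ℤ) :
    g (k + M * z) = g k := by
  induction z using Int.induction_on with
  | zero => simp
  | succ i ih =>
    have : k + (M : ℤ) * ((i : ℤ) + 1) = (k + M * i) + M := by ring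
    rw [this, hg, ih]
  | pred i ih =>
    have : k + (M : ℤ) * (-(i : ℤ) - 1) + M = k + M * (-i) := by ring
    rw [← hg, this, ih]

theorem exists_nat_rep {n : ℕ} {g : ℤ → Fin n} {M : ℕ} (hM : 0 < M) (hg : ∀ k, g (k + M) = g k)
    (k : ℤ) : ∃ m : ℕ, m < M ∧ g (m : ℤ) = g k ∧ (M : ℤ) ∣ k - m := by
  have hM' : (0 : ℤ) < M := by exact_mod_cast hM
  have h0 := Int.emod_nonneg k hM'.ne'
  have h1 := Int.emod_lt_of_pos k hM'
  refine ⟨(k % M).toNat, ?_, ?_, ?_⟩
  · have : ((k % M).toNat : ℤ) < M := by rw [Int.toNat_of_nonneg h0]; exact h1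
    exact_mod_cast this
  · rw [Int.toNat_of_nonneg h0]
    have h2 : k = k % M + M * (k / M) := (Int.emod_add_mul_ediv k M).symm
    conv_rhs => rw [h2]
    rw [gper_mul hg]
  · rw [Int.toNat_of_nonneg h0]
    exact Int.dvd_self_sub_emod

/-- there are two different fat indices in one period -/
theorem two_fat (hGAP : ST_GAP) {n : ℕ} {c : Fin n → ℂ} {M : ℕ} {g : ℤ → Fin n} {a b : ℤ → ℝ}
    (h : HD c M g a b) : ∃ k l : ℤ, a k < b k ∧ a l < b l ∧ g k ≠ g l := by
  have hM : (0 : ℤ) < M := by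
    have := h.two
    exact_mod_cast (by omega : 0 < M)
  have hpi := Real.pi_pos
  have hex : ∃ k, a k < b k := by
    by_contra hne
    push Not at hne
    have h1 := (hGAP n c M g a b h 0 (0 + M) (by omega) (fun j _ _ =>
      le_antisymm (h.le j) (hne j))).1
    rw [h.aper] at h1
    have h2 := hne 0
    linarith
  obtain ⟨k, hk⟩ := hex
  by_contra hne
  push Not at hne
  have h1 := (hGAP n c M g a b h k (k + M) (by omega) (fun j hj1 hj2 => by
    by_contra h3
    have h4 : a j < b j := lt_of_le_of_ne (h.le j) h3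
    have h5 := hne k j hk h4
    obtain ⟨z, hz⟩ := h.ginj _ _ h5
    have h6 : 0 < M * z := by omega
    have h7 : (M : ℤ) * z < M * 1 := by omega
    have h8 : z < 1 := lt_of_mul_lt_mul_left h7 hM.le
    have h9 : 0 < z := by
      by_contra hz0
      have := mul_nonpos_of_nonneg_of_nonpos hM.le (not_lt.1 hz0)
      omega
    omega)).1
  rw [h.aper] at h1
  have h2 := h.ltpi k
  linarith

theorem two_le_lst (hGAP : ST_GAP) {n : ℕ} {c : Fin n → ℂ} {M : ℕ} {g : ℤ → Fin n} {a b : ℤ → ℝ}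
    (h : HD c M g a b) {S : Finset (Fin n)} (hS : Adm g a b S) : 2 ≤ (lst g M S).length := by
  obtain ⟨k, l, hk, hl, hkl⟩ := two_fat hGAP h
  have hM : 0 < M := by have := h.two; omega
  obtain ⟨k', hk'1, hk'2, -⟩ := exists_nat_rep hM h.gper k
  obtain ⟨l', hl'1, hl'2, -⟩ := exists_nat_rep hM h.gper l
  have h1 : g k ∈ lst g M S := mem_lst.2 ⟨⟨k', hk'1, hk'2⟩, hS.1 k hk⟩
  have h2 : g l ∈ lst g M S := mem_lst.2 ⟨⟨l', hl'1, hl'2⟩, hS.1 l hl⟩
  rcases hL : lst g M S with _ | ⟨x, _ | ⟨y, L⟩⟩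
  · rw [hL] at h1; simp at h1
  · rw [hL] at h1 h2
    simp only [List.mem_singleton] at h1 h2
    exact absurd (h1.trans h2.symm) hkl
  · simp

/-- positive derivative at `0`: eventually larger to the right -/
theorem eventually_gt_of_deriv {f : ℝ → ℝ} {f' : ℝ} (h : HasDerivAt f f' 0) (hf : 0 < f') :
    ∀ᶠ s in 𝓝[>] (0 : ℝ), f 0 < f s := by
  have h1 := (hasDerivAt_iff_tendsto_slope.1 h).mono_left
    (nhdsWithin_mono (0 : ℝ) (show Set.Ioi (0 : ℝ) ⊆ {0}ᶜ from fun x hx => (ne_of_gt hx)))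
  have h2 := h1.eventually (lt_mem_nhds hf)
  filter_upwards [h2, self_mem_nhdsWithin] with s hs hs0
  rw [slope_def_field, sub_zero] at hs
  have hs0' : 0 < s := hs0
  have h3 : 0 < (f s - f 0) / s * s := mul_pos hs hs0'
  rw [div_mul_cancel₀ _ hs0'.ne'] at h3
  linarith

theorem tendsto_line {n : ℕ} (c h : Fin n → ℂ) :
    Tendsto (fun s : ℝ => fun i => c i + (s : ℂ) * h i) (𝓝[>] (0 : ℝ)) (𝓝 c) := by
  have h1 : Continuous (fun s : ℝ => fun i => c i + (s : ℂ) * h i) := by fun_prop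
  have h2 := h1.tendsto 0
  simp only [ofReal_zero, zero_mul, add_zero] at h2
  exact h2.mono_left nhdsWithin_le_nhds

theorem dist_sq_line (x y u v : ℂ) (s : ℝ) :
    dist (x + (s : ℂ) * u) (y + (s : ℂ) * v) ^ 2 = dist x y ^ 2 +
      2 * s * ((x - y) * (starRingEnd ℂ) (u - v)).re + s ^ 2 * ‖u - v‖ ^ 2 := by
  have e1 : (x + (s : ℂ) * u) - (y + (s : ℂ) * v) = (x - y) + (s : ℂ) * (u - v) := by ring
  rw [dist_eq_norm, e1, dist_eq_norm]
  rw [← Complex.normSq_eq_norm_sq, ← Complex.normSq_eq_norm_sq, ← Complex.normSq_eq_norm_sq,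
    Complex.normSq_add]
  simp only [map_mul, conj_ofReal, Complex.normSq_ofReal]
  have h3 : ((x - y) * ((s : ℂ) * (starRingEnd ℂ) (u - v))).re =
      s * ((x - y) * (starRingEnd ℂ) (u - v)).re := by
    have : (x - y) * ((s : ℂ) * (starRingEnd ℂ) (u - v)) =
        (s : ℂ) * ((x - y) * (starRingEnd ℂ) (u - v)) := by ring
    rw [this, Complex.re_ofReal_mul]
  rw [h3]
  ring

/-- the tight pairs stay tight or become slack along a good direction -/
theorem tight_eventually {x y u v x' y' u' v' : ℂ} (h0 : dist x y = dist x' y')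
    (h1 : ((x - y) * (starRingEnd ℂ) (u - v)).re < ((x' - y') * (starRingEnd ℂ) (u' - v')).re) :
    ∀ᶠ s : ℝ in 𝓝[>] (0 : ℝ), dist (x + (s : ℂ) * u) (y + (s : ℂ) * v) ≤
      dist (x' + (s : ℂ) * u') (y' + (s : ℂ) * v') := by
  set A := ((x - y) * (starRingEnd ℂ) (u - v)).re
  set B := ((x' - y') * (starRingEnd ℂ) (u' - v')).re
  have hc : Continuous (fun s : ℝ => 2 * (A - B) + s * (‖u - v‖ ^ 2 - ‖u' - v'‖ ^ 2)) := by
    fun_prop
  have h2 : ∀ᶠ s : ℝ in 𝓝 (0 : ℝ), 2 * (A - B) + s * (‖u - v‖ ^ 2 - ‖u' - v'‖ ^ 2) < 0 := by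
    have := hc.tendsto 0
    exact this.eventually (gt_mem_nhds (by simp; linarith))
  filter_upwards [nhdsWithin_le_nhds h2, self_mem_nhdsWithin] with s hs hs0
  have hs0' : 0 < s := hs0
  have h3 := dist_sq_line x y u v s
  have h4 := dist_sq_line x' y' u' v' s
  rw [h0] at h3
  have h5 : dist (x + (s : ℂ) * u) (y + (s : ℂ) * v) ^ 2 -
      dist (x' + (s : ℂ) * u') (y' + (s : ℂ) * v') ^ 2 =
      s * (2 * (A - B) + s * (‖u - v‖ ^ 2 - ‖u' - v'‖ ^ 2)) := by
    rw [h3, h4]; ring
  have h6 : s * (2 * (A - B) + s * (‖u - v‖ ^ 2 - ‖u' - v'‖ ^ 2)) < 0 :=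
    mul_neg_of_pos_of_neg hs0' hs
  exact abs_le_of_sq_le_sq' (by linarith) dist_nonneg |>.2

theorem slack_eventually {x y u v x' y' u' v' : ℂ} (h0 : dist x y < dist x' y') :
    ∀ᶠ s : ℝ in 𝓝[>] (0 : ℝ), dist (x + (s : ℂ) * u) (y + (s : ℂ) * v) ≤
      dist (x' + (s : ℂ) * u') (y' + (s : ℂ) * v') := by
  have hc : Continuous (fun s : ℝ => dist (x' + (s : ℂ) * u') (y' + (s : ℂ) * v') -
      dist (x + (s : ℂ) * u) (y + (s : ℂ) * v)) := by fun_prop
  have h2 : ∀ᶠ s : ℝ in 𝓝 (0 : ℝ), 0 < dist (x' + (s : ℂ) * u') (y' + (s : ℂ) * v') -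
      dist (x + (s : ℂ) * u) (y + (s : ℂ) * v) := by
    have := hc.tendsto 0
    exact this.eventually (lt_mem_nhds (by simp; exact h0))
  filter_upwards [nhdsWithin_le_nhds h2] with s hs
  linarith

/-- the sum over ordered pairs -/
theorem pair_sum {n : ℕ} (d : Fin n × Fin n → ℝ) (x : Fin n → ℂ) (i : Fin n) :
    ∑ z : Fin n × Fin n, (d z : ℂ) * ((if z.1 = i then x z.1 - x z.2 else 0) +
      (if z.2 = i then x z.2 - x z.1 else 0)) =
      ∑ j, ((d (i, j) + d (j, i) : ℝ) : ℂ) * (x i - x j) := by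
  have h1 : ∀ z : Fin n × Fin n, (d z : ℂ) * ((if z.1 = i then x z.1 - x z.2 else 0) +
      (if z.2 = i then x z.2 - x z.1 else 0)) =
      (if z.1 = i then (d z : ℂ) * (x z.1 - x z.2) else 0) +
      (if z.2 = i then (d z : ℂ) * (x z.2 - x z.1) else 0) := by
    intro z
    rw [mul_add, mul_ite, mul_ite, mul_zero]
  rw [Finset.sum_congr rfl fun z _ => h1 z, Finset.sum_add_distrib, Fintype.sum_prod_type,
    Fintype.sum_prod_type_right]
  simp only
  have h2 : ∀ a : Fin n, ∑ b, (if a = i then (d (a, b) : ℂ) * (x a - x b) else 0) =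
      if a = i then ∑ b, (d (a, b) : ℂ) * (x a - x b) else 0 := by
    intro a; split_ifs <;> simp
  have h3 : ∀ b : Fin n, ∑ a, (if b = i then (d (a, b) : ℂ) * (x b - x a) else 0) =
      if b = i then ∑ a, (d (a, b) : ℂ) * (x b - x a) else 0 := by
    intro a; split_ifs <;> simp
  rw [Finset.sum_congr rfl fun a _ => h2 a, Finset.sum_congr rfl fun b _ => h3 b]
  rw [Finset.sum_ite_eq' Finset.univ i, Finset.sum_ite_eq' Finset.univ i]
  simp only [Finset.mem_univ, if_true]
  rw [← Finset.sum_add_distrib]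
  refine Finset.sum_congr rfl fun j _ => ?_
  push_cast
  ring

/-- energy identity -/
theorem energy {n : ℕ} (W : Fin n → Fin n → ℝ) (hW : ∀ i j, W i j = W j i) (x : Fin n → ℂ) :
    ∑ i, ((∑ j, (W i j : ℂ) * (x i - x j)) * (starRingEnd ℂ) (x i)).re =
      (1 / 2) * ∑ i, ∑ j, W i j * ‖x i - x j‖ ^ 2 := by
  have h1 : ∀ i, ((∑ j, (W i j : ℂ) * (x i - x j)) * (starRingEnd ℂ) (x i)).re =
      ∑ j, W i j * ((x i - x j) * (starRingEnd ℂ) (x i)).re := by
    intro i
    rw [Finset.sum_mul, Complex.re_sum]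
    refine Finset.sum_congr rfl fun j _ => ?_
    rw [mul_assoc, Complex.re_ofReal_mul]
  rw [Finset.sum_congr rfl fun i _ => h1 i]
  have h2 : ∑ i, ∑ j, W i j * ((x i - x j) * (starRingEnd ℂ) (x i)).re =
      ∑ i, ∑ j, W i j * ((x j - x i) * (starRingEnd ℂ) (x j)).re := by
    rw [Finset.sum_comm]
    refine Finset.sum_congr rfl fun i _ => Finset.sum_congr rfl fun j _ => ?_
    rw [hW j i]
  have h3 : ∑ i, ∑ j, W i j * ‖x i - x j‖ ^ 2 =
      ∑ i, ∑ j, W i j * ((x i - x j) * (starRingEnd ℂ) (x i)).re +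
      ∑ i, ∑ j, W i j * ((x j - x i) * (starRingEnd ℂ) (x j)).re := by
    rw [← Finset.sum_add_distrib]
    refine Finset.sum_congr rfl fun i _ => ?_
    rw [← Finset.sum_add_distrib]
    refine Finset.sum_congr rfl fun j _ => ?_
    rw [← mul_add]
    congr 1
    rw [← Complex.normSq_eq_norm_sq, Complex.normSq_apply]
    simp only [mul_re, sub_re, sub_im, conj_re, conj_im]
    ring
  rw [h3, ← h2]
  ring

theorem sum_sub {α E : Type} [Fintype α] [AddCommMonoid E] (P : α → Prop) [DecidablePred P]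
    (f : {x // P x} → E) : ∑ x : {x // P x}, f x = ∑ x, if h : P x then f ⟨x, h⟩ else 0 := by
  have h1 := Finset.sum_subtype (F := inferInstance) (Finset.univ.filter P) (p := P) (by simp)
    (fun x => if h : P x then f ⟨x, h⟩ else 0)
  rw [Finset.sum_filter] at h1
  have h2 : ∑ x : {x // P x}, f x = ∑ x : {x // P x}, (if h : P x.1 then f ⟨x.1, h⟩ else 0) := by
    refine Finset.sum_congr rfl fun x _ => ?_
    rw [dif_pos x.2]
  rw [h2, ← h1]
  refine Finset.sum_congr rfl fun x _ => ?_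
  split_ifs <;> rfl

/-- no direction improves a maximal pair -/
theorem no_direction (hACT : ST_ACT) (hGAP : ST_GAP) (hLOCP : ST_LOCP) (hLOCQ : ST_LOCQ)
    (hD2 : ST_D2) {n : ℕ} {p q : Fin n → ℂ} {M : ℕ} {gp : ℤ → Fin n} {ap bp : ℤ → ℝ}
    {gq : ℤ → Fin n} {aq bq : ℤ → ℝ} (hmax : MaxPair p q) (hp : HD p M gp ap bp)
    (hq : HD q n gq aq bq) (hfat : ∀ k, aq k < bq k) (h k : Fin n → ℂ)
    (hS : ∀ S, Adm gp ap bp S → ∑ i, (cgrad p (lst gp M S) i * (starRingEnd ℂ) (h i)).re <
      ∑ i, (cgrad q (lst gq n Finset.univ) i * (starRingEnd ℂ) (k i)).re)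
    (hT : ∀ i j, i ≠ j → dist (q i) (q j) = dist (p i) (p j) →
      ((q i - q j) * (starRingEnd ℂ) (k i - k j)).re <
        ((p i - p j) * (starRingEnd ℂ) (h i - h j)).re) : False := by
  classical
  have hLq2 : 2 ≤ (lst gq n Finset.univ).length := by
    have : (lst gq n Finset.univ).length = n := by
      unfold lst
      simp
    rw [this]; exact hq.two
  have hdq := DTOUR n q k (lst gq n Finset.univ) (lst_nodup hq.ginj _) hLq2
    (fun i _ j _ hij => ⟨fun h => hij (hq.inj h), hD2 n q hq.int i j⟩)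
  have hdp : ∀ S, Adm gp ap bp S → HasDerivAt
      (fun s : ℝ => ctour (fun i => p i + (s : ℂ) * h i) (lst gp M S))
      (∑ i, (cgrad p (lst gp M S) i * (starRingEnd ℂ) (h i)).re) 0 := fun S hS =>
    DTOUR n p h (lst gp M S) (lst_nodup hp.ginj _) (two_le_lst hGAP hp hS)
      (fun i _ j _ hij => ⟨fun h => hij (hp.inj h), hD2 n p hp.int i j⟩)
  -- the tours
  have e1 : ∀ᶠ s : ℝ in 𝓝[>] (0 : ℝ), ∀ S, Adm gp ap bp S →
      ctour q (lst gq n Finset.univ) - ctour p (lst gp M S) <
      ctour (fun i => q i + (s : ℂ) * k i) (lst gq n Finset.univ) -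
        ctour (fun i => p i + (s : ℂ) * h i) (lst gp M S) := by
    rw [Filter.eventually_all]
    intro S
    by_cases hA : Adm gp ap bp S
    · have h1 := (hdq.sub (hdp S hA))
      have h2 := eventually_gt_of_deriv h1 (by linarith [hS S hA])
      filter_upwards [h2] with s hs _
      simpa using hs
    · exact Filter.Eventually.of_forall fun s h' => absurd h' hA
  -- the perimeters
  have e2 := (tendsto_line q k).eventually (hLOCQ n q gq aq bq hq hfat)
  have e3 := (tendsto_line p h).eventually (hLOCP n p M gp ap bp hp)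
  have q0 := (hLOCQ n q gq aq bq hq hfat).self_of_nhds
  -- the contraction
  have e4 : ∀ᶠ s : ℝ in 𝓝[>] (0 : ℝ), ∀ i j,
      dist (q i + (s : ℂ) * k i) (q j + (s : ℂ) * k j) ≤
      dist (p i + (s : ℂ) * h i) (p j + (s : ℂ) * h j) := by
    rw [Filter.eventually_all]
    intro i
    rw [Filter.eventually_all]
    intro j
    by_cases hij : i = j
    · subst hij
      exact Filter.Eventually.of_forall fun s => by simp
    · rcases eq_or_lt_of_le (hmax.ctr i j) with h1 | h1
      · exact tight_eventually h1 (hT i j hij h1)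
      · exact slack_eventually h1
  obtain ⟨s, h1, h2, h3, h4⟩ := (e1.and (e2.and (e3.and e4))).exists
  obtain ⟨S, hA, h5⟩ := h3
  have h6 := h1 S hA
  have h7 := hmax.max _ _ h4
  have h8 := hACT n p M gp ap bp hp S hA
  rw [h5, h2, q0] at h7
  linarith

end H82

theorem KKT (hACT : ST_ACT) (hGAP : ST_GAP) (hLOCP : ST_LOCP) (hLOCQ : ST_LOCQ)
    (hD2 : ST_D2) : ST_KKT := by
  intro n p q M gp ap bp gq aq bq hmax hp hq hfat
  classical
  set Lq := lst gq n Finset.univ with hLq
  let P1 : Finset (Fin n) → Prop := fun S => Adm gp ap bp S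
  let P2 : Fin n × Fin n → Prop := fun z => z.1 ≠ z.2 ∧ dist (q z.1) (q z.2) = dist (p z.1) (p z.2)
  have : Nonempty {S : Finset (Fin n) // P1 S} :=
    ⟨⟨Finset.univ.filter (fun i => ∃ k, gp k = i),
      ⟨fun k _ => by simp, fun i hi => by simpa using hi⟩⟩⟩
  let v : ({S : Finset (Fin n) // P1 S} ⊕ {z : Fin n × Fin n // P2 z}) → (Fin n ⊕ Fin n) → ℂ :=
    fun κ ι => match κ, ι with
    | Sum.inl S, Sum.inl i => -cgrad p (lst gp M S.1) i
    | Sum.inl _, Sum.inr i => cgrad q Lq i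
    | Sum.inr z, Sum.inl i => (if z.1.1 = i then p z.1.1 - p z.1.2 else 0) +
        (if z.1.2 = i then p z.1.2 - p z.1.1 else 0)
    | Sum.inr z, Sum.inr i => -((if z.1.1 = i then q z.1.1 - q z.1.2 else 0) +
        (if z.1.2 = i then q z.1.2 - q z.1.1 else 0))
  have hpair : ∀ (x : Fin n → ℂ) (w : Fin n → ℂ) (a b : Fin n),
      ∑ i, (((if a = i then x a - x b else 0) + (if b = i then x b - x a else 0)) *
        (starRingEnd ℂ) (w i)).re = ((x a - x b) * (starRingEnd ℂ) (w a - w b)).re := by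
    intro x w a b
    have h1 : ∀ i, (((if a = i then x a - x b else 0) + (if b = i then x b - x a else 0)) *
        (starRingEnd ℂ) (w i)).re = (if a = i then ((x a - x b) * (starRingEnd ℂ) (w a)).re else 0) +
        (if b = i then ((x b - x a) * (starRingEnd ℂ) (w b)).re else 0) := by
      intro i
      rw [add_mul, add_re]
      congr 1
      · split_ifs with h
        · rw [h]
        · simp
      · split_ifs with h
        · rw [h]
        · simp
    rw [Finset.sum_congr rfl fun i _ => h1 i, Finset.sum_add_distrib]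
    simp only [Finset.sum_ite_eq, Finset.mem_univ, if_true]
    rw [← add_re, map_sub]
    congr 1
    ring
  have hG := GORDAN _ _ v (by
    intro w
    by_contra hne
    push Not at hne
    refine H82.no_direction hACT hGAP hLOCP hLOCQ hD2 hmax hp hq hfat (fun i => w (Sum.inl i))
      (fun i => w (Sum.inr i)) ?_ ?_
    · intro S hS
      have h1 := hne (Sum.inl ⟨S, hS⟩)
      rw [Fintype.sum_sum_type] at h1
      simp only [v, neg_mul, neg_re, Finset.sum_neg_distrib] at h1
      linarith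
    · intro i j hij hd
      have h1 := hne (Sum.inr ⟨(i, j), hij, hd⟩)
      rw [Fintype.sum_sum_type] at h1
      simp only [v, neg_mul, neg_re, Finset.sum_neg_distrib] at h1
      rw [hpair, hpair] at h1
      linarith)
  obtain ⟨c, hc0, hc1, hc⟩ := hG
  obtain ⟨θ, hθ⟩ : ∃ θ : Finset (Fin n) → ℝ, θ = fun S => if h : P1 S then c (Sum.inl ⟨S, h⟩) else 0 :=
    ⟨_, rfl⟩
  obtain ⟨d, hd⟩ : ∃ d : Fin n × Fin n → ℝ, d = fun z => if h : P2 z then c (Sum.inr ⟨z, h⟩) else 0 :=
    ⟨_, rfl⟩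
  have hθ0 : ∀ S, 0 ≤ θ S := by
    intro S; rw [hθ]; simp only; split_ifs
    · exact hc0 _
    · exact le_rfl
  have hd0 : ∀ z, 0 ≤ d z := by
    intro z; rw [hd]; simp only; split_ifs
    · exact hc0 _
    · exact le_rfl
  have hsum : ∑ S, θ S + ∑ z, d z = 1 := by
    rw [Fintype.sum_sum_type, H82.sum_sub, H82.sum_sub] at hc1
    rw [hθ, hd]
    exact hc1
  have hθA : ∀ S, θ S ≠ 0 → Adm gp ap bp S := by
    intro S h
    by_contra hA
    apply h
    rw [hθ]
    exact dif_neg hA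
  have hdP : ∀ z, d z ≠ 0 → P2 z := by
    intro z h
    by_contra hA
    apply h
    rw [hd]
    exact dif_neg hA
  have hcp : ∀ i, ∑ j, ((d (i, j) + d (j, i) : ℝ) : ℂ) * (p i - p j) =
      ∑ S, (θ S : ℂ) * cgrad p (lst gp M S) i := by
    intro i
    have h1 := hc (Sum.inl i)
    rw [Fintype.sum_sum_type, H82.sum_sub, H82.sum_sub] at h1
    rw [← H82.pair_sum d p i]
    have h2 : ∑ S, (if h : P1 S then (c (Sum.inl ⟨S, h⟩) : ℂ) * v (Sum.inl ⟨S, h⟩) (Sum.inl i)
        else 0) = -∑ S, (θ S : ℂ) * cgrad p (lst gp M S) i := by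
      rw [← Finset.sum_neg_distrib]
      refine Finset.sum_congr rfl fun S _ => ?_
      rw [hθ]
      simp only
      split_ifs with h
      · simp only [v]; ring
      · simp
    have h3 : ∑ z, (if h : P2 z then (c (Sum.inr ⟨z, h⟩) : ℂ) * v (Sum.inr ⟨z, h⟩) (Sum.inl i)
        else 0) = ∑ z : Fin n × Fin n, (d z : ℂ) * ((if z.1 = i then p z.1 - p z.2 else 0) +
      (if z.2 = i then p z.2 - p z.1 else 0)) := by
      refine Finset.sum_congr rfl fun z _ => ?_
      rw [hd]
      simp only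
      by_cases h : P2 z
      · rw [dif_pos h, dif_pos h]
      · rw [dif_neg h, dif_neg h]
        simp
    rw [h2, h3] at h1
    linear_combination h1
  have hcq : ∀ i, ∑ j, ((d (i, j) + d (j, i) : ℝ) : ℂ) * (q i - q j) =
      ((∑ S, θ S : ℝ) : ℂ) * cgrad q Lq i := by
    intro i
    have h1 := hc (Sum.inr i)
    rw [Fintype.sum_sum_type, H82.sum_sub, H82.sum_sub] at h1
    rw [← H82.pair_sum d q i]
    have h2 : ∑ S, (if h : P1 S then (c (Sum.inl ⟨S, h⟩) : ℂ) * v (Sum.inl ⟨S, h⟩) (Sum.inr i)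
        else 0) = ((∑ S, θ S : ℝ) : ℂ) * cgrad q Lq i := by
      rw [ofReal_sum, Finset.sum_mul]
      refine Finset.sum_congr rfl fun S _ => ?_
      rw [hθ]
      simp only
      split_ifs with h
      · simp only [v]
      · simp
    have h3 : ∑ z, (if h : P2 z then (c (Sum.inr ⟨z, h⟩) : ℂ) * v (Sum.inr ⟨z, h⟩) (Sum.inr i)
        else 0) = -∑ z : Fin n × Fin n, (d z : ℂ) * ((if z.1 = i then q z.1 - q z.2 else 0) +
      (if z.2 = i then q z.2 - q z.1 else 0)) := by
      rw [← Finset.sum_neg_distrib]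
      refine Finset.sum_congr rfl fun z _ => ?_
      rw [hd]
      simp only
      by_cases h : P2 z
      · rw [dif_pos h, dif_pos h]
        simp only [v]
        ring
      · rw [dif_neg h, dif_neg h]
        simp
    rw [h2, h3] at h1
    linear_combination -h1
  have hT : 0 < ∑ S, θ S := by
    rcases eq_or_lt_of_le (Finset.sum_nonneg fun S _ => hθ0 S : 0 ≤ ∑ S, θ S) with h | h
    · exfalso
      have h1 : ∀ S, θ S = 0 := fun S =>
        (Finset.sum_eq_zero_iff_of_nonneg fun S _ => hθ0 S).1 h.symm S (Finset.mem_univ _)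
      have h2 : ∀ i, ∑ j, ((d (i, j) + d (j, i) : ℝ) : ℂ) * (p i - p j) = 0 := by
        intro i
        rw [hcp i]
        exact Finset.sum_eq_zero fun S _ => by rw [h1 S]; simp
      have h3 := H82.energy (fun i j => d (i, j) + d (j, i)) (fun i j => add_comm _ _) p
      simp only [h2, zero_mul, zero_re, Finset.sum_const_zero] at h3
      have h4 : ∑ i, ∑ j, (d (i, j) + d (j, i)) * ‖p i - p j‖ ^ 2 = 0 := by linarith
      have h5 : ∀ i j, (d (i, j) + d (j, i)) * ‖p i - p j‖ ^ 2 = 0 := by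
        intro i j
        have a1 := (Finset.sum_eq_zero_iff_of_nonneg (fun i _ => Finset.sum_nonneg fun j _ =>
          mul_nonneg (add_nonneg (hd0 _) (hd0 _)) (sq_nonneg _))).1 h4 i (Finset.mem_univ _)
        exact (Finset.sum_eq_zero_iff_of_nonneg (fun j _ =>
          mul_nonneg (add_nonneg (hd0 _) (hd0 _)) (sq_nonneg _))).1 a1 j (Finset.mem_univ _)
      have h6 : ∀ z, d z = 0 := by
        intro z
        by_contra hz
        have h7 := (hdP z hz).1
        have h8 := h5 z.1 z.2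
        have h9 : ‖p z.1 - p z.2‖ ^ 2 ≠ 0 := by
          have : p z.1 - p z.2 ≠ 0 := sub_ne_zero.2 fun h => h7 (hp.inj h)
          positivity
        have h10 : d (z.1, z.2) + d (z.2, z.1) = 0 := (mul_eq_zero.1 h8).resolve_right h9
        have h11 := hd0 (z.2, z.1)
        have h12 : 0 < d z := lt_of_le_of_ne (hd0 z) (Ne.symm hz)
        have h13 : d (z.1, z.2) = d z := rfl
        linarith
      have h7 : ∑ z, d z = 0 := Finset.sum_eq_zero fun z _ => h6 z
      linarith
    · exact h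
  set T := ∑ S, θ S with hTdef
  refine ⟨fun i j => (d (i, j) + d (j, i)) / T, fun S => θ S / T, ?_⟩
  refine ⟨?_, ?_, ?_, ?_, ?_, ?_, ?_, ?_, ?_⟩
  · intro i j
    exact div_nonneg (add_nonneg (hd0 _) (hd0 _)) hT.le
  · intro i j
    rw [add_comm]
  · intro i
    have : d (i, i) = 0 := by
      by_contra h
      exact (hdP _ h).1 rfl
    simp [this]
  · intro i j hij
    by_contra hne
    apply hij
    have a1 : d (i, j) = 0 := by
      by_contra h
      exact hne (hdP _ h).2
    have a2 : d (j, i) = 0 := by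
      by_contra h
      have := (hdP _ h).2
      simp only at this
      rw [dist_comm, dist_comm (p j)] at this
      exact hne this
    simp [a1, a2]
  · intro S
    exact div_nonneg (hθ0 S) hT.le
  · rw [← Finset.sum_div]
    exact div_self hT.ne'
  · intro S hS
    exact hθA S fun h => hS (by simp [h])
  · intro i
    have h1 := hcq i
    have hTC : (T : ℂ) ≠ 0 := by exact_mod_cast hT.ne'
    have h2 : ∑ j, (((d (i, j) + d (j, i)) / T : ℝ) : ℂ) * (q i - q j) =
        (∑ j, ((d (i, j) + d (j, i) : ℝ) : ℂ) * (q i - q j)) / T := by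
      rw [Finset.sum_div]
      refine Finset.sum_congr rfl fun j _ => ?_
      push_cast
      ring
    rw [h2, h1]
    field_simp
  · intro i
    have h1 := hcp i
    have h2 : ∑ j, (((d (i, j) + d (j, i)) / T : ℝ) : ℂ) * (p i - p j) =
        (∑ j, ((d (i, j) + d (j, i) : ℝ) : ℂ) * (p i - p j)) / T := by
      rw [Finset.sum_div]
      refine Finset.sum_congr rfl fun j _ => ?_
      push_cast
      ring
    have h3 : ∑ S, ((θ S / T : ℝ) : ℂ) * cgrad p (lst gp M S) i =
        (∑ S, (θ S : ℂ) * cgrad p (lst gp M S) i) / T := by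
      rw [Finset.sum_div]
      refine Finset.sum_congr rfl fun j _ => ?_
      push_cast
      ring
    rw [h2, h3, h1]

end E5
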