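import Pool.Agent.Helper15.E5.VSheet

/-!
Alexander N <= 5: analytic part of the vertex lemma, rows N2form, M1, M2, M2s, V1
(the function `E5.N2`).
-/

set_option autoImplicit false

namespace E5.H82

open Real

theorem N2_comm (e a b : ℝ) : N2 e a b = N2 e b a := by
  unfold N2; ring

theorem N2_eq (e a b : ℝ) : N2 e a b =
    (1 + a ^ 2) + (1 + b ^ 2) - 2 * (√(1 + a ^ 2) * √(1 + b ^ 2)) * cos (e + arctan a + arctan b) := by
  have ha : (0 : ℝ) < √(1 + a ^ 2) := Real.sqrt_pos.2 (by positivity)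
  have hb : (0 : ℝ) < √(1 + b ^ 2) := Real.sqrt_pos.2 (by positivity)
  rw [cos_add, cos_add, sin_add, cos_arctan, sin_arctan, cos_arctan, sin_arctan]
  unfold N2
  field_simp
  ring

/-- (M2) -/
theorem N2_mono {e e' a b : ℝ} (ha : 0 ≤ a) (hb : 0 ≤ b) (he : 0 ≤ e) (hee : e ≤ e')
    (h : e' + arctan a + arctan b ≤ π) : N2 e a b ≤ N2 e' a b := by
  rw [N2_eq, N2_eq]
  have h1 : cos (e' + arctan a + arctan b) ≤ cos (e + arctan a + arctan b) := by
    have h2 := arctan_nonneg.2 ha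
    have h3 := arctan_nonneg.2 hb
    exact cos_le_cos_of_nonneg_of_le_pi (by linarith) h (by linarith)
  have h4 : 0 ≤ 2 * (√(1 + a ^ 2) * √(1 + b ^ 2)) := by positivity
  nlinarith

theorem N2_strictMono {e e' a b : ℝ} (ha : 0 ≤ a) (hb : 0 ≤ b) (he : 0 ≤ e) (hee : e < e')
    (h : e' + arctan a + arctan b ≤ π) : N2 e a b < N2 e' a b := by
  rw [N2_eq, N2_eq]
  have h1 : cos (e' + arctan a + arctan b) < cos (e + arctan a + arctan b) := by
    have h2 := arctan_nonneg.2 ha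
    have h3 := arctan_nonneg.2 hb
    exact cos_lt_cos_of_nonneg_of_le_pi (by linarith) h (by linarith)
  have hA : (0 : ℝ) < √(1 + a ^ 2) := Real.sqrt_pos.2 (by positivity)
  have hB : (0 : ℝ) < √(1 + b ^ 2) := Real.sqrt_pos.2 (by positivity)
  have h4 : 0 < 2 * (√(1 + a ^ 2) * √(1 + b ^ 2)) := by positivity
  nlinarith

/-- (M1) -/
theorem N2_shift {E x y h : ℝ} (hx : 0 ≤ x) (hy : 0 ≤ y) (hh : 0 ≤ h) (hE : h ≤ E) (hpi : E ≤ π) :
    N2 E x y ≤ N2 (E - h) (x + h) y := by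
  have key : MonotoneOn (fun t : ℝ => N2 (E - t) (x + t) y) (Set.Icc 0 E) := by
    have hd : ∀ t : ℝ, HasDerivAt (fun t : ℝ => N2 (E - t) (x + t) y)
        (2 * (x + t) * (1 - cos (E - t)) + 2 * (x + t) * y * sin (E - t)) t := by
      intro t
      unfold N2
      have h1 : HasDerivAt (fun t : ℝ => E - t) (-1) t := by
        simpa using (hasDerivAt_id t).const_sub E
      have h2 : HasDerivAt (fun t : ℝ => x + t) 1 t := by
        simpa using (hasDerivAt_id t).const_add x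
      have hc := h1.cos
      have hs := h1.sin
      have h3 := ((((hc.const_mul 2).const_sub 2).add (h2.pow 2)).add_const (y ^ 2)).add
        (((h2.const_mul 2).mul_const y).mul hc)
      have h4 := h3.add ((((h2.add_const y)).const_mul 2).mul hs)
      refine h4.congr_deriv ?_
      simp
      ring
    apply monotoneOn_of_deriv_nonneg (convex_Icc 0 E)
    · exact fun t _ => (hd t).continuousAt.continuousWithinAt
    · exact fun t _ => (hd t).differentiableAt.differentiableWithinAt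
    · intro t ht
      rw [interior_Icc] at ht
      rw [(hd t).deriv]
      have h5 : 0 ≤ sin (E - t) := sin_nonneg_of_nonneg_of_le_pi (by linarith [ht.2]) (by linarith [ht.1])
      have h6 : 0 ≤ 1 - cos (E - t) := by linarith [cos_le_one (E - t)]
      have h7 : 0 ≤ x + t := by linarith [ht.1]
      positivity
  have := key (Set.mem_Icc.2 ⟨le_rfl, hh.trans hE⟩) (Set.mem_Icc.2 ⟨hh, hE⟩) hh
  simpa using this

/-- A sinusoid which is at least `m ≥ 0` at the two ends of an interval shorter than `π` is at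
least `m` on the interval. -/
theorem sinusoid {P Q m e1 e e2 : ℝ} (hm : 0 ≤ m) (h1 : e1 ≤ e) (h2 : e ≤ e2) (h3 : e2 - e1 < π)
    (H1 : m ≤ P * cos e1 + Q * sin e1) (H2 : m ≤ P * cos e2 + Q * sin e2) :
    m ≤ P * cos e + Q * sin e := by
  rcases eq_or_lt_of_le (h1.trans h2) with h | h
  · have : e = e1 := le_antisymm (by linarith) h1
    rw [this]; exact H1
  have hid : (P * cos e + Q * sin e) * sin (e2 - e1) =
      (P * cos e1 + Q * sin e1) * sin (e2 - e) + (P * cos e2 + Q * sin e2) * sin (e - e1) := by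
    rw [sin_sub, sin_sub, sin_sub]
    have hc := sin_sq_add_cos_sq e
    ring_nf
  have hs : 0 < sin (e2 - e1) := sin_pos_of_pos_of_lt_pi (by linarith) h3
  have hs1 : 0 ≤ sin (e2 - e) := sin_nonneg_of_nonneg_of_le_pi (by linarith) (by linarith)
  have hs2 : 0 ≤ sin (e - e1) := sin_nonneg_of_nonneg_of_le_pi (by linarith) (by linarith)
  have hadd : sin (e2 - e1) ≤ sin (e2 - e) + sin (e - e1) := by
    have : e2 - e1 = (e2 - e) + (e - e1) := by ring
    rw [this, sin_add]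
    have := cos_le_one (e - e1)
    have := cos_le_one (e2 - e)
    nlinarith
  have h5 : m * sin (e2 - e1) ≤ (P * cos e + Q * sin e) * sin (e2 - e1) := by
    rw [hid]
    nlinarith
  exact le_of_mul_le_mul_right h5 hs

theorem xbeta {x β : ℝ} (hx : 0 ≤ x) (hβ : 0 ≤ β) (h : β ≤ π - 2 * arctan x) : x * β ≤ 2 := by
  rcases eq_or_lt_of_le hx with h0 | h0
  · rw [← h0]; simp
  have h1 := arctan_pos.2 h0
  have h2 : β / 2 < π / 2 := by linarith
  have h3 : β / 2 ≤ tan (β / 2) := le_tan (by linarith) h2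
  have h4 : tan (β / 2) ≤ x⁻¹ := by
    have h5 : tan (π / 2 - arctan x) = x⁻¹ := by rw [tan_pi_div_two_sub, tan_arctan]
    rw [← h5]
    rcases eq_or_lt_of_le (show β / 2 ≤ π / 2 - arctan x by linarith) with h6 | h6
    · rw [h6]
    · exact (tan_lt_tan_of_lt_of_lt_pi_div_two (by linarith) (by linarith) h6).le
  have h7 : β / 2 ≤ x⁻¹ := h3.trans h4
  have h8 : x * (β / 2) ≤ x * x⁻¹ := mul_le_mul_of_nonneg_left h7 hx
  rw [mul_inv_cancel₀ h0.ne'] at h8
  linarith

/-- `2 (1 - cos β) ≥ β² - β⁴/12` for `0 ≤ β ≤ 2`. -/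
theorem one_sub_cos_ge {β : ℝ} (h0 : 0 ≤ β) (h2 : β ≤ 2) :
    β ^ 2 - β ^ 4 / 12 ≤ 2 * (1 - cos β) := by
  have h1 : 2 * (1 - cos β) = 4 * sin (β / 2) ^ 2 := by
    have := sin_sq_eq_half_sub (β / 2)
    rw [this]
    ring_nf
  rw [h1]
  have h3 := sin_ge_sub_cube (x := β / 2) (by linarith)
  have h4 : 0 ≤ β / 2 - (β / 2) ^ 3 / 6 := by
    have : (β / 2) ^ 3 / 6 ≤ β / 2 := by
      have h5 : β / 2 ≤ 1 := by linarith
      have h6 : 0 ≤ β / 2 := by linarith
      have h7 : (β / 2) ^ 3 ≤ β / 2 := by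
        have h8 : (β / 2) ^ 2 ≤ 1 := by nlinarith
        nlinarith
      linarith
    linarith
  have h5 : (β / 2 - (β / 2) ^ 3 / 6) ^ 2 ≤ sin (β / 2) ^ 2 := pow_le_pow_left₀ h4 h3 2
  have h6 : β ^ 2 - β ^ 4 / 12 ≤ 4 * (β / 2 - (β / 2) ^ 3 / 6) ^ 2 := by
    have : 4 * (β / 2 - (β / 2) ^ 3 / 6) ^ 2 = β ^ 2 - β ^ 4 / 12 + (β ^ 3 / 24) ^ 2 := by ring
    rw [this]
    nlinarith [sq_nonneg (β ^ 3 / 24)]
  linarith

/-- (i) -/
theorem V1_i {x u : ℝ} (hu : 0 ≤ u) (hux : u ≤ x) (hb : x * (x + u) ≤ 2) :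
    u * (4 * x - u) ≤ 2 * (1 + x ^ 2) * (1 - cos (x + u)) := by
  have h0 : 0 ≤ x + u := by linarith
  have h4 : (x + u) ^ 2 ≤ 4 := by nlinarith
  have h2 : x + u ≤ 2 := by nlinarith
  have h1 := one_sub_cos_ge h0 h2
  have h3 : (x + u) ^ 2 / 4 ≤ x ^ 2 := by nlinarith
  have h5 : (1 + (x + u) ^ 2 / 4) * ((x + u) ^ 2 - (x + u) ^ 4 / 12) ≤
      (1 + x ^ 2) * (2 * (1 - cos (x + u))) := by
    have h6 : 0 ≤ (x + u) ^ 2 - (x + u) ^ 4 / 12 := by
      have : (x + u) ^ 4 = (x + u) ^ 2 * (x + u) ^ 2 := by ring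
      rw [this]
      nlinarith [sq_nonneg (x + u)]
    apply mul_le_mul (by linarith) h1 h6 (by positivity)
  have h7 : (x + u) ^ 2 ≤ (1 + (x + u) ^ 2 / 4) * ((x + u) ^ 2 - (x + u) ^ 4 / 12) := by
    have h8 : (1 + (x + u) ^ 2 / 4) * ((x + u) ^ 2 - (x + u) ^ 4 / 12) - (x + u) ^ 2 =
        (x + u) ^ 2 * ((x + u) ^ 2 * (1 / 6 - (x + u) ^ 2 / 48)) := by ring
    have h9 : 0 ≤ (x + u) ^ 2 * ((x + u) ^ 2 * (1 / 6 - (x + u) ^ 2 / 48)) := by
      have : 0 ≤ 1 / 6 - (x + u) ^ 2 / 48 := by linarith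
      positivity
    linarith
  nlinarith [sq_nonneg (x - u), sq_nonneg u]

/-- (iii) -/
theorem V1_iii {x u : ℝ} (hu : 0 ≤ u) (hux : u ≤ x) (hb : x * (x + u) ≤ 2) :
    u * (2 * x - u) ≤ 2 * (1 - cos (x + u)) + 2 * (x - u) * sin (x + u) := by
  have h0 : 0 ≤ x + u := by linarith
  have h2 : x + u ≤ 2 := by nlinarith
  have h1 := one_sub_cos_ge h0 h2
  have h3 := sin_ge_sub_cube h0
  have h4 : 2 * (x - u) * ((x + u) - (x + u) ^ 3 / 6) ≤ 2 * (x - u) * sin (x + u) :=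
    mul_le_mul_of_nonneg_left h3 (by linarith)
  have h5 : (x + u) ^ 2 - (x + u) ^ 4 / 12 + 2 * (x - u) * ((x + u) - (x + u) ^ 3 / 6)
      - u * (2 * x - u) = 3 * x ^ 2 - (x + u) ^ 3 * (5 * x - 3 * u) / 12 := by ring
  have h6 : (x + u) ^ 3 * (5 * x - 3 * u) ≤ 16 * x ^ 4 := by
    have : 16 * x ^ 4 - (x + u) ^ 3 * (5 * x - 3 * u) =
      (x - u) ^ 2 * (11 * x ^ 2 + 10 * x * u + 3 * u ^ 2) := by ring
    have h7 : 0 ≤ (x - u) ^ 2 * (11 * x ^ 2 + 10 * x * u + 3 * u ^ 2) := by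
      have : 0 ≤ x := by linarith
      positivity
    linarith
  have h8 : 16 * x ^ 4 ≤ 36 * x ^ 2 := by
    have h9 : x ^ 2 ≤ 2 := by nlinarith
    nlinarith [sq_nonneg x]
  linarith

/-- (ii) -/
theorem V1_ii {x u : ℝ} (hu : 0 ≤ u) (hux : u ≤ x) (hb : x * (x + u) ≤ 2) :
    u * (2 * x - u + 4 * x / (1 + x ^ 2)) ≤ 2 * (1 - cos (x + u)) + 2 * x * sin (x + u) := by
  have h0 : 0 ≤ x + u := by linarith
  have hx : 0 ≤ x := by linarith
  have h2 : x + u ≤ 2 := by nlinarith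
  have h1 := one_sub_cos_ge h0 h2
  have h3 := sin_ge_sub_cube h0
  have h4 : 2 * x * ((x + u) - (x + u) ^ 3 / 6) ≤ 2 * x * sin (x + u) :=
    mul_le_mul_of_nonneg_left h3 (by linarith)
  have hP : (0 : ℝ) < 1 + x ^ 2 := by positivity
  have h5 : u * (2 * x - u + 4 * x / (1 + x ^ 2)) ≤
      (x + u) ^ 2 - (x + u) ^ 4 / 12 + 2 * x * ((x + u) - (x + u) ^ 3 / 6) := by
    have h6 : u * (2 * x - u + 4 * x / (1 + x ^ 2)) =
        (u * (2 * x - u) * (1 + x ^ 2) + 4 * x * u) / (1 + x ^ 2) := by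
      field_simp
    rw [h6, div_le_iff₀ hP]
    have h7 : ((x + u) ^ 2 - (x + u) ^ 4 / 12 + 2 * x * ((x + u) - (x + u) ^ 3 / 6)) * (1 + x ^ 2) -
        (u * (2 * x - u) * (1 + x ^ 2) + 4 * x * u) =
        (2 - x * (x + u)) * (x * (x + u) ^ 2 * (5 * x + u) / 12) +
        (2 - x * (x + u)) * ((3 * x ^ 2 - 2 * x * u + 2 * u ^ 2) / 2) +
        ((3 * x ^ 2 - 2 * x * u + 2 * u ^ 2) * (x * (x + u)) / 2 +
          x ^ 2 * (3 * x ^ 2 + 2 * x * u + 2 * u ^ 2) -
          (x + u) ^ 2 * (5 * x + u) * (3 * x + u) / 12) := by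
      ring
    have h8 : 0 ≤ (3 * x ^ 2 - 2 * x * u + 2 * u ^ 2) / 2 := by nlinarith [sq_nonneg (x - u)]
    have h9 : 0 ≤ x * (x + u) ^ 2 * (5 * x + u) / 12 := by positivity
    have h10 : 0 ≤ (3 * x ^ 2 - 2 * x * u + 2 * u ^ 2) * (x * (x + u)) / 2 +
          x ^ 2 * (3 * x ^ 2 + 2 * x * u + 2 * u ^ 2) -
          (x + u) ^ 2 * (5 * x + u) * (3 * x + u) / 12 := by
      have hv : 0 ≤ x - u := by linarith
      have hxu : 0 ≤ x * u := by positivity
      nlinarith [mul_nonneg hxu (sq_nonneg (x - u)), sq_nonneg (x ^ 2 - x * u), sq_nonneg (x * u),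
        mul_nonneg (mul_nonneg hx hv) (sq_nonneg u), mul_nonneg (mul_nonneg hx hv) (sq_nonneg x),
        mul_nonneg hxu hxu, mul_nonneg hxu (sq_nonneg u), mul_nonneg hv (pow_nonneg hu 3),
        mul_nonneg (mul_nonneg hx hv) hxu, pow_nonneg hx 4]
    have h11 : 0 ≤ 2 - x * (x + u) := by linarith
    nlinarith [mul_nonneg h11 h9, mul_nonneg h11 h8]
  linarith

theorem slope_nonneg {x β : ℝ} (hx : 0 ≤ x) (hxβ : x ≤ β) (h2 : β ≤ 2) :
    x * cos β ≤ sin β := by
  have hpi := pi_gt_three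
  rcases lt_or_ge β (π / 2) with h | h
  · have hc : 0 < cos β := cos_pos_of_mem_Ioo ⟨by linarith, h⟩
    have h3 : β ≤ tan β := le_tan (by linarith) h
    rw [tan_eq_sin_div_cos, le_div_iff₀ hc] at h3
    nlinarith
  · have hc : cos β ≤ 0 := cos_nonpos_of_pi_div_two_le_of_le h (by linarith)
    have hs : 0 ≤ sin β := sin_nonneg_of_nonneg_of_le_pi (by linarith) (by linarith)
    nlinarith

/-- (E1) the end `e = β`. -/
theorem E1 {a b x : ℝ} (ha : 0 ≤ a) (hax : a ≤ x) (hb : 0 ≤ b) (hx : 0 < x)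
    (hX : 2 * x - a ≤ π - 2 * arctan x) (hB : 2 * x - a ≤ π - 2 * arctan b) :
    x ^ 2 + 2 * x * b ≤ 2 - 2 * cos (2 * x - a) + a ^ 2 + 2 * a * b * cos (2 * x - a)
      + 2 * (a + b) * sin (2 * x - a) := by
  have hβ0 : 0 < 2 * x - a := by linarith
  have hxb := xbeta hx.le hβ0.le hX
  have hβ2 : 2 * x - a ≤ 2 := by nlinarith
  have h3 := V1_iii (x := x) (u := x - a) (by linarith) (by linarith) (by nlinarith)
  have e1 : x + (x - a) = 2 * x - a := by ring
  rw [e1] at h3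
  rcases le_or_gt 0 (a * cos (2 * x - a) + sin (2 * x - a) - x) with hs | hs
  · nlinarith [mul_nonneg hb hs]
  · have hpi := pi_gt_three
    have hs2 : 0 < sin ((2 * x - a) / 2) := sin_pos_of_pos_of_lt_pi (by linarith) (by linarith)
    have hc2 : 0 < cos ((2 * x - a) / 2) := cos_pos_of_mem_Ioo ⟨by linarith, by linarith⟩
    obtain ⟨k, hk⟩ : ∃ k : ℝ, k = cos ((2 * x - a) / 2) / sin ((2 * x - a) / 2) := ⟨_, rfl⟩
    have hk0 : 0 < k := by rw [hk]; positivity
    have hks : k * sin ((2 * x - a) / 2) = cos ((2 * x - a) / 2) := by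
      rw [hk]; field_simp
    have hbk : b ≤ k := by
      have h4 : arctan b ≤ π / 2 - (2 * x - a) / 2 := by linarith
      have h5 : b = tan (arctan b) := (tan_arctan b).symm
      have h6 : tan (π / 2 - (2 * x - a) / 2) = k := by
        rw [tan_pi_div_two_sub, tan_eq_sin_div_cos, hk, inv_div]
      rw [h5, ← h6]
      have h7 := arctan_nonneg.2 hb
      rcases eq_or_lt_of_le h4 with h8 | h8
      · rw [h8]
      · exact (tan_lt_tan_of_lt_of_lt_pi_div_two (by linarith) (by linarith) h8).le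
    have hk2 : k * (2 * x - a) ≤ 2 := by
      have h8 : (2 * x - a) / 2 ≤ tan ((2 * x - a) / 2) := le_tan (by linarith) (by linarith)
      rw [tan_eq_sin_div_cos, le_div_iff₀ hc2] at h8
      have h9 : (2 * x - a) / 2 * (k * sin ((2 * x - a) / 2)) ≤ sin ((2 * x - a) / 2) := by
        rw [hks]; exact h8
      have h10 : (k * (2 * x - a) / 2) * sin ((2 * x - a) / 2) ≤ 1 * sin ((2 * x - a) / 2) := by
        nlinarith
      have := le_of_mul_le_mul_right h10 hs2
      linarith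
    have hI4 : (x - a) * (2 * x - (x - a)) + 2 * (x - a) * k ≤ 4 := by
      have h11 : x ^ 2 ≤ 2 := by nlinarith
      have h12 : 2 * (x - a) * k ≤ 2 := by
        have : 2 * (x - a) * k ≤ k * (2 * x - a) := by nlinarith
        linarith
      nlinarith
    have hsin : sin (2 * x - a) = 2 * sin ((2 * x - a) / 2) * cos ((2 * x - a) / 2) := by
      rw [← sin_two_mul]; ring_nf
    have hcos : cos (2 * x - a) = 2 * cos ((2 * x - a) / 2) ^ 2 - 1 := by
      rw [← cos_two_mul]; ring_nf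
    have hcos2 : cos (2 * x - a) = 1 - 2 * sin ((2 * x - a) / 2) ^ 2 := by
      rw [hcos]; nlinarith [sin_sq_add_cos_sq ((2 * x - a) / 2)]
    -- value at `k`
    have hval : 2 - 2 * cos (2 * x - a) + a ^ 2 - x ^ 2 + 2 * a * sin (2 * x - a)
        + 2 * k * (a * cos (2 * x - a) + sin (2 * x - a) - x) =
        4 - ((x - a) * (2 * x - (x - a)) + 2 * (x - a) * k) := by
      have h13 : k * sin (2 * x - a) = 1 + cos (2 * x - a) := by
        rw [hsin, hcos]
        calc k * (2 * sin ((2 * x - a) / 2) * cos ((2 * x - a) / 2))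
            = 2 * (k * sin ((2 * x - a) / 2)) * cos ((2 * x - a) / 2) := by ring
          _ = 2 * cos ((2 * x - a) / 2) * cos ((2 * x - a) / 2) := by rw [hks]
          _ = _ := by ring
      have h14 : k * cos (2 * x - a) = k - sin (2 * x - a) := by
        rw [hcos2, hsin]
        calc k * (1 - 2 * sin ((2 * x - a) / 2) ^ 2)
            = k - 2 * (k * sin ((2 * x - a) / 2)) * sin ((2 * x - a) / 2) := by ring
          _ = k - 2 * cos ((2 * x - a) / 2) * sin ((2 * x - a) / 2) := by rw [hks]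
          _ = _ := by ring
      linear_combination 2 * a * h14 + 2 * h13
    nlinarith [mul_nonneg (sub_nonneg.2 hbk) (neg_nonneg.2 hs.le)]

/-- (E2) the end `e = π - 2 arctan x`, for `b ≤ x`; `C`, `S` are its cosine and sine. -/
theorem E2 {a b x C S : ℝ} (ha : 0 ≤ a) (hax : a ≤ x) (hb : 0 ≤ b) (hx : 0 < x) (hbx : b ≤ x)
    (hxb : x * (2 * x - a) ≤ 2) (hC : (1 + x ^ 2) * C = x ^ 2 - 1) (hS : (1 + x ^ 2) * S = 2 * x) :
    x ^ 2 - a ^ 2 ≤ (-2 + 2 * a * b + (2 - 2 * x * b) * cos (2 * x - a)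
      + 2 * (x + b) * sin (2 * x - a)) * C + (2 * (a + b) + (2 - 2 * x * b) * sin (2 * x - a)
      - 2 * (x + b) * cos (2 * x - a)) * S := by
  have h1 := V1_i (x := x) (u := x - a) (by linarith) (by linarith) (by nlinarith)
  have h2 := V1_ii (x := x) (u := x - a) (by linarith) (by linarith) (by nlinarith)
  have e1 : x + (x - a) = 2 * x - a := by ring
  rw [e1] at h1 h2
  have hP : (0 : ℝ) < 1 + x ^ 2 := by positivity
  have h2' : (x - a) * (2 * x - (x - a)) * (1 + x ^ 2) + 4 * x * (x - a) ≤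
      (2 * (1 - cos (2 * x - a)) + 2 * x * sin (2 * x - a)) * (1 + x ^ 2) := by
    have h3 : (x - a) * (2 * x - (x - a) + 4 * x / (1 + x ^ 2)) * (1 + x ^ 2) =
        (x - a) * (2 * x - (x - a)) * (1 + x ^ 2) + 4 * x * (x - a) := by
      field_simp
    rw [← h3]
    exact mul_le_mul_of_nonneg_right h2 hP.le
  generalize cos (2 * x - a) = c at *
  generalize sin (2 * x - a) = s at *
  -- multiply by `(1 + x^2) * x`
  have hkey : 0 ≤ (1 + x ^ 2) * x * (((-2 + 2 * a * b + (2 - 2 * x * b) * c + 2 * (x + b) * s) * C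
      + (2 * (a + b) + (2 - 2 * x * b) * s - 2 * (x + b) * c) * S) - (x ^ 2 - a ^ 2)) := by
    have hexp : (1 + x ^ 2) * x * (((-2 + 2 * a * b + (2 - 2 * x * b) * c + 2 * (x + b) * s) * C
      + (2 * (a + b) + (2 - 2 * x * b) * s - 2 * (x + b) * c) * S) - (x ^ 2 - a ^ 2)) =
      (x - b) * ((2 * (1 - c) + 2 * x * s) * (1 + x ^ 2) -
        ((x - a) * (2 * x - (x - a)) * (1 + x ^ 2) + 4 * x * (x - a))) +
      b * (1 + x ^ 2) * (2 * (1 + x ^ 2) * (1 - c) - (x - a) * (4 * x - (x - a))) := by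
      linear_combination x * (-2 + 2 * a * b + (2 - 2 * x * b) * c + 2 * (x + b) * s) * hC +
        x * (2 * (a + b) + (2 - 2 * x * b) * s - 2 * (x + b) * c) * hS
    rw [hexp]
    have h4 : 0 ≤ x - b := by linarith
    have h5 : 0 ≤ (2 * (1 - c) + 2 * x * s) * (1 + x ^ 2) -
        ((x - a) * (2 * x - (x - a)) * (1 + x ^ 2) + 4 * x * (x - a)) := by linarith
    have h6 : 0 ≤ 2 * (1 + x ^ 2) * (1 - c) - (x - a) * (4 * x - (x - a)) := by linarith
    have := mul_nonneg h4 h5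
    have := mul_nonneg (mul_nonneg hb hP.le) h6
    linarith
  have h7 : (0 : ℝ) < (1 + x ^ 2) * x := by positivity
  have := nonneg_of_mul_nonneg_right hkey h7
  linarith

/-- (E3) the end `e = π - 2 arctan b`, for `x ≤ b`. -/
theorem E3 {a b x C S : ℝ} (ha : 0 ≤ a) (hax : a ≤ x) (hx : 0 < x) (hbx : x ≤ b)
    (hxb : x * (2 * x - a) ≤ 2) (hC : (1 + b ^ 2) * C = b ^ 2 - 1) (hS : (1 + b ^ 2) * S = 2 * b) :
    x ^ 2 - a ^ 2 ≤ (-2 + 2 * a * b + (2 - 2 * x * b) * cos (2 * x - a)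
      + 2 * (x + b) * sin (2 * x - a)) * C + (2 * (a + b) + (2 - 2 * x * b) * sin (2 * x - a)
      - 2 * (x + b) * cos (2 * x - a)) * S := by
  have h1 := V1_i (x := x) (u := x - a) (by linarith) (by linarith) (by nlinarith)
  have e1 : x + (x - a) = 2 * x - a := by ring
  rw [e1] at h1
  have h2 := slope_nonneg (x := x) (β := 2 * x - a) hx.le (by linarith) (by nlinarith)
  have hP : (0 : ℝ) < 1 + b ^ 2 := by positivity
  generalize cos (2 * x - a) = c at *
  generalize sin (2 * x - a) = s at *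
  have hkey : (1 + b ^ 2) * (((-2 + 2 * a * b + (2 - 2 * x * b) * c + 2 * (x + b) * s) * C
      + (2 * (a + b) + (2 - 2 * x * b) * s - 2 * (x + b) * c) * S) - (x ^ 2 - a ^ 2)) =
      (1 + b ^ 2) * ((2 * (1 + x ^ 2) * (1 - c) - (x - a) * (4 * x - (x - a))) +
        2 * (b - x) * (a + (s - x * c))) := by
    linear_combination (-2 + 2 * a * b + (2 - 2 * x * b) * c + 2 * (x + b) * s) * hC +
        (2 * (a + b) + (2 - 2 * x * b) * s - 2 * (x + b) * c) * hS
  have h3 := mul_left_cancel₀ hP.ne' hkey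
  have h4 : 0 ≤ 2 * (b - x) * (a + (s - x * c)) := by
    have : 0 ≤ b - x := by linarith
    have : 0 ≤ a + (s - x * c) := by linarith
    positivity
  linarith

theorem cos_sin_end (t : ℝ) : (1 + t ^ 2) * cos (π - 2 * arctan t) = t ^ 2 - 1 ∧
    (1 + t ^ 2) * sin (π - 2 * arctan t) = 2 * t := by
  have h1 : (0 : ℝ) < 1 + t ^ 2 := by positivity
  have h2 : cos (arctan t) ^ 2 = 1 / (1 + t ^ 2) := by
    rw [cos_arctan, div_pow, sq_sqrt h1.le]; ring
  have h3 : sin (arctan t) * cos (arctan t) = t / (1 + t ^ 2) := by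
    rw [cos_arctan, sin_arctan, div_mul_div_comm, mul_one, mul_self_sqrt h1.le]
  constructor
  · rw [cos_pi_sub, cos_two_mul, h2]; field_simp; ring
  · rw [sin_pi_sub, sin_two_mul]
    calc (1 + t ^ 2) * (2 * sin (arctan t) * cos (arctan t))
        = (1 + t ^ 2) * (2 * (sin (arctan t) * cos (arctan t))) := by ring
      _ = _ := by rw [h3]; field_simp

theorem V1 : ST_V1 := by
  intro a b x e ha hax hb h1 h2 h3
  rcases eq_or_lt_of_le (ha.trans hax) with h0 | hx
  · have ha0 : a = 0 := by linarith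
    rw [← h0, ha0]
    norm_num
  have hβ0 : 0 < 2 * x - a := by linarith
  have hX : 2 * x - a ≤ π - 2 * arctan x := by linarith
  have hB : 2 * x - a ≤ π - 2 * arctan b := by linarith
  have hxb := xbeta hx.le hβ0.le hX
  have hAx := arctan_pos.2 hx
  have hform : ∀ t : ℝ, N2 t a b - N2 (t - (2 * x - a)) x b = a ^ 2 - x ^ 2 +
      ((-2 + 2 * a * b + (2 - 2 * x * b) * cos (2 * x - a) + 2 * (x + b) * sin (2 * x - a)) * cos t
      + (2 * (a + b) + (2 - 2 * x * b) * sin (2 * x - a)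
      - 2 * (x + b) * cos (2 * x - a)) * sin t) := by
    intro t
    unfold N2
    rw [cos_sub t, sin_sub t]
    ring
  have hm : 0 ≤ x ^ 2 - a ^ 2 := by nlinarith
  have H1 : x ^ 2 - a ^ 2 ≤
      (-2 + 2 * a * b + (2 - 2 * x * b) * cos (2 * x - a) + 2 * (x + b) * sin (2 * x - a))
        * cos (2 * x - a) + (2 * (a + b) + (2 - 2 * x * b) * sin (2 * x - a)
      - 2 * (x + b) * cos (2 * x - a)) * sin (2 * x - a) := by
    have h4 := hform (2 * x - a)
    have h5 := E1 ha hax hb hx hX hB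
    have h6 : N2 (2 * x - a - (2 * x - a)) x b = (x + b) ^ 2 := by
      unfold N2
      rw [sub_self, cos_zero, sin_zero]
      ring
    rw [h6] at h4
    have h7 : 0 ≤ N2 (2 * x - a) a b - (x + b) ^ 2 := by
      unfold N2
      nlinarith
    linarith
  rcases le_total b x with hbx | hbx
  · have hcs := cos_sin_end x
    have H2 := E2 ha hax hb hx hbx hxb hcs.1 hcs.2
    have := sinusoid hm h1 h2 (by linarith) H1 H2
    have h8 := hform e
    linarith
  · have hcs := cos_sin_end b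
    have H2 := E3 ha hax hx hbx hxb hcs.1 hcs.2
    have hAb : arctan x ≤ arctan b := arctan_le_arctan_iff.2 hbx
    have := sinusoid hm h1 h3 (by linarith) H1 H2
    have h8 := hform e
    linarith

end E5.H82

/-- Row ST_V1. -/
theorem E5.V1 : E5.ST_V1 := E5.H82.V1
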