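import Pool.Agent.Helper71.E5.Stmts

/-! Row GORDAN (MP_efd95c_co). -/

set_option autoImplicit false

open Complex

noncomputable section

namespace E5

namespace H82

/-- real linear functionals on `ι → ℂ` -/
theorem repr_functional {ι : Type} [Fintype ι] (f : (ι → ℂ) →L[ℝ] ℝ) :
    ∃ w : ι → ℂ, ∀ x : ι → ℂ, f x = ∑ i, (x i * (starRingEnd ℂ) (w i)).re := by
  classical
  refine ⟨fun i => (f (Pi.single i 1) : ℂ) + (f (Pi.single i I) : ℂ) * I, fun x => ?_⟩
  have hx : x = ∑ i, ((x i).re • (Pi.single i (1 : ℂ) : ι → ℂ) + (x i).im • (Pi.single i I : ι → ℂ)) := by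
    funext j
    rw [Finset.sum_apply]
    rw [Finset.sum_eq_single j]
    · simp only [Pi.add_apply, Pi.smul_apply, Pi.single_eq_same]
      rw [Complex.real_smul, Complex.real_smul, mul_one]
      exact (Complex.re_add_im (x j)).symm
    · intro b _ hb
      simp [Pi.single_eq_of_ne (Ne.symm hb)]
    · intro h; exact absurd (Finset.mem_univ j) h
  conv_lhs => rw [hx]
  rw [map_sum]
  refine Finset.sum_congr rfl fun i _ => ?_
  rw [map_add, map_smul, map_smul, map_add, map_mul, conj_I, conj_ofReal, conj_ofReal]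
  simp [Complex.mul_re, Complex.mul_im]

end H82

theorem GORDAN : ST_GORDAN := by
  intro κ ι _ _ _ v H
  classical
  let L : (κ → ℝ) →L[ℝ] (ι → ℂ) :=
    ∑ k, (ContinuousLinearMap.proj (R := ℝ) (φ := fun _ : κ => ℝ) k).smulRight (v k)
  have hL : ∀ c : κ → ℝ, L c = ∑ k, c k • v k := by
    intro c
    simp [L]
  have hS : IsCompact (L '' stdSimplex ℝ κ) := (isCompact_stdSimplex ℝ κ).image L.continuous
  have hC : Convex ℝ (L '' stdSimplex ℝ κ) := (convex_stdSimplex ℝ κ).linear_image L.toLinearMap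
  by_cases h0 : (0 : ι → ℂ) ∈ L '' stdSimplex ℝ κ
  · obtain ⟨c, hc, h⟩ := h0
    refine ⟨c, hc.1, hc.2, fun i => ?_⟩
    rw [hL] at h
    have := congrFun h i
    rw [Finset.sum_apply] at this
    simpa [Complex.real_smul] using this
  · exfalso
    obtain ⟨f, u, h1, h2⟩ := geometric_hahn_banach_point_closed hC hS.isClosed h0
    rw [map_zero] at h1
    obtain ⟨w, hw⟩ := H82.repr_functional f
    obtain ⟨k, hk⟩ := H w
    rw [← hw] at hk
    have h3 : v k ∈ L '' stdSimplex ℝ κ := by
      refine ⟨Pi.single k 1, single_mem_stdSimplex ℝ k, ?_⟩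
      rw [hL]
      rw [Finset.sum_eq_single k]
      · simp
      · intro b _ hb; simp [hb]
      · intro h; exact absurd (Finset.mem_univ k) h
    have := h2 _ h3
    linarith

end E5
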